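import Pool.Agent.Q36.EF.Cy

/-!
# The fibrations given by nef classes on torus quotients, with an exponent depending on the dimension

`X = V / Γ` is the quotient of a complex torus of dimension `d` by a finite group. `latt`,
`IsTorusQuotient`, `LineBundle` and `LineBundle.pow` are defined in `Pool.Agent.W594.SYZ.Defs2`;
`IsHermitian`, `IsChernForm`, `IsNefForm` and `IsPositiveForm` in `Pool.Agent.W594.SYZ.TQDefs`;
`HOneZero` and `IsFibration` in `Pool.Agent.TH735.AQ.Defs`; `N`, `BasePointFree`,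
`SameImage`, `IsIso` and `Defines` in `Pool.Agent.Q36.EF.Defs`; `IsFlatTwist` in
`Pool.Agent.Q36.EF.Twist`.
-/

set_option autoImplicit false

universe u

namespace Pool.Agent.Results.MP_cfacaa_ag.EffectiveFibration

open Pool.Agent.W594.SYZ2 Pool.Agent.TH735.AQ Q36.EF

/-- Let `X` be a torus quotient of dimension `d` and `L` a nef line bundle on `X` with Chern form `H`.
There is a fibration `g : X → B = ℂ^n / Δ` onto a torus quotient such that for some flat line bundle
`P`, trivial if `H^1(X, O_X) = 0`, the linear system `|M|` of `M = L ^ N(d) ⊗ P` is base point free and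
defines `g`: `M` is the pullback of an ample line bundle `A` on `B`, which is base point free and
separates the points of `B`, and the Chern form of `A` pulls back to `N(d) H`. Every fibration
`g' : X → B'` onto a torus quotient, such that a positive definite hermitian form on the base pulls
back to a positive multiple of `H`, is isomorphic to `g`. -/
theorem result {V : Type u} [NormedAddCommGroup V] [NormedSpace ℂ V] [FiniteDimensional ℂ V]
    (Γ : Subgroup (V ≃ᵃ[ℂ] V)) (hΓ : IsTorusQuotient Γ) (L : LineBundle Γ) (H : V → V → ℂ)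
    (hc : IsChernForm L H) (hn : IsNefForm H) :
    ∃ (n : ℕ) (Δ : Subgroup ((Fin n → ℂ) ≃ᵃ[ℂ] (Fin n → ℂ))) (π : V →ₗ[ℂ] (Fin n → ℂ)),
      IsFibration Γ Δ π ∧
      (∃ (M : LineBundle Γ) (χ : Γ → ℂ), IsFlatTwist M L (N (Module.finrank ℂ V)) χ ∧
        (HOneZero Γ → ∀ γ, χ γ = 1) ∧
        Defines M (fun v w => (N (Module.finrank ℂ V) : ℂ) * H v w) Δ π) ∧
      ∀ (n' : ℕ) (Δ' : Subgroup ((Fin n' → ℂ) ≃ᵃ[ℂ] (Fin n' → ℂ)))
        (π' : V →ₗ[ℂ] (Fin n' → ℂ)), IsFibration Γ Δ' π' →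
        ∀ (m : ℕ) (B : (Fin n' → ℂ) → (Fin n' → ℂ) → ℂ), 1 ≤ m → IsHermitian B →
          IsPositiveForm B → (∀ v w, B (π' v) (π' w) = (m : ℂ) * H v w) →
        ∃ φ : (Fin n → ℂ) ≃ₗ[ℂ] (Fin n' → ℂ), (∀ v, π' v = φ (π v)) ∧
          ∀ δ' : (Fin n' → ℂ) ≃ᵃ[ℂ] (Fin n' → ℂ),
            δ' ∈ Δ' ↔ ∃ δ ∈ Δ, ∀ w, δ' (φ w) = φ (δ w) :=
  cy hΓ hc hn

end Pool.Agent.Results.MP_cfacaa_ag.EffectiveFibration
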