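import Pool.Agent.Q26.CP.Main

/-!
# Nef classes on Calabi-Yau manifolds: uniformity and reduction modulo `p`

Fix a bounded type of pairs `(X, L)`, e.g. all the connected smooth `X ⊂ ℙ^N` of given dimension and
degree with `m K_X ∼ 0` for a given `m`, and the line bundles `L = O(A - B)` with effective divisors
`A`, `B` of degree at most `d`. The following are equivalent.

1. For all complex pairs of this type with `L` nef there is a unique fibration `g : X → B` with
`L = g^* L_B` for an ample class `L_B`.
2. There is a number `n` such that for all pairs of this type over all algebraically closed fields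
of characteristic zero: if `L · C ≥ 0` for all curves `C ⊂ X` of degree at most `n`, then for some
`1 ≤ m ≤ n` there is a base point free line bundle numerically equivalent to `L^m`.
3. There is a number `n` such that the same holds for all pairs of this type over `F̄_p`, for
infinitely many primes `p`.
4. There is a number `n` such that the same holds for all pairs of this type over `F̄_p`, for all but
finitely many primes `p`.

In dimension at most two all this is true.
-/

set_option autoImplicit false

namespace Pool.Agent.Results.MP_cfacaa_ag.EffectiveModPrimes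

open Pool.Agent.Q26.CP

/-- The pairs `(X, L)` over algebraically closed fields `K` of a smooth projective variety `X` with
`m K_X ∼ 0` for some `m > 0` and a line bundle `L` on `X`. There are bounded types `t : Ty`, with
`X` of dimension `dim t`; the pairs of type `t` over `K` are parametrized by the points of `K ^ k t`
with the property `isPair t`. The property `nonneg t n` says that `L · C ≥ 0` for all curves `C ⊂ X`
of degree at most `n`, and `free t n` says that for some `1 ≤ m ≤ n` there is a base point free
line bundle numerically equivalent to `L ^ m`. These are first-order properties of the parameters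
(relative Hilbert and Picard schemes). Over the complex numbers `Nef` says that `L` is nef, and
`Fibration` says that there is, up to isomorphism of the target, exactly one surjective morphism
`g : X → B` with connected fibres onto a normal variety such that the class of `L` in `H²(X, ℚ)` is
the pull-back of an ample class.

`nef_iff` is the definition of nefness, `stein` is the Stein factorization (and the rigidity lemma
for the uniqueness), and `known` is the case of surfaces and curves. -/
structure Pairs where
  Ty : Type
  dim : Ty → ℕ
  k : Ty → ℕ
  isPair : ∀ t, Pred (k t)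
  nonneg : ∀ t, ℕ → Pred (k t)
  free : ∀ t, ℕ → Pred (k t)
  fo_isPair : ∀ t, IsFirstOrder (isPair t)
  fo_nonneg : ∀ t n, IsFirstOrder (nonneg t n)
  fo_free : ∀ t n, IsFirstOrder (free t n)
  nonneg_anti : ∀ t (m n : ℕ), m ≤ n → ∀ (K : Type) [Field K] (x : Fin (k t) → K),
    nonneg t n K x → nonneg t m K x
  free_mono : ∀ t (m n : ℕ), m ≤ n → ∀ (K : Type) [Field K] (x : Fin (k t) → K),
    free t m K x → free t n K x
  Nef : ∀ t, (Fin (k t) → ℂ) → Prop
  Fibration : ∀ t, (Fin (k t) → ℂ) → Prop
  nef_iff : ∀ t x, isPair t ℂ x → (Nef t x ↔ ∀ n, nonneg t n ℂ x)
  stein : ∀ t x, isPair t ℂ x → Nef t x → (Fibration t x ↔ ∃ n, free t n ℂ x)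
  known : ∀ t, dim t ≤ 2 → ∀ x, isPair t ℂ x → Nef t x → Fibration t x

/-- for all complex pairs of type `t` with `L` nef there is a unique fibration with `L = g^* L_B`,
`L_B` ample -/
def StrongAbundance (A : Pairs) (t : A.Ty) : Prop :=
  ∀ x : Fin (A.k t) → ℂ, A.isPair t ℂ x → A.Nef t x → A.Fibration t x

/-- for all pairs of type `t` over `K`: if `L · C ≥ 0` for all curves `C` of degree at most `n`, then
for some `1 ≤ m ≤ n` there is a base point free line bundle numerically equivalent to `L ^ m` -/
def Effective (A : Pairs) (t : A.Ty) (n : ℕ) (K : Type) [Field K] : Prop :=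
  ∀ x : Fin (A.k t) → K, A.isPair t K x → A.nonneg t n K x → A.free t n K x

/-- there is a number which works for all algebraically closed fields of characteristic zero -/
def UniformCharZero (A : Pairs) (t : A.Ty) : Prop :=
  ∃ n, ∀ (K : Type) [Field K] [IsAlgClosed K] [CharZero K], Effective A t n K

/-- there is a number which works for `F̄_p`, for infinitely many primes `p` -/
def UniformInfinitely (A : Pairs) (t : A.Ty) : Prop :=
  ∃ n, {p : Nat.Primes | Effective A t n (Fbar p)}.Infinite

/-- there is a number which works for `F̄_p`, for all but finitely many primes `p` -/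
def UniformAlmost (A : Pairs) (t : A.Ty) : Prop :=
  ∃ n, {p : Nat.Primes | ¬ Effective A t n (Fbar p)}.Finite

/-- strong abundance for one type as a `Problem` -/
def Pairs.problem (A : Pairs) (t : A.Ty) : Problem where
  k := A.k t
  hyp n := fun K _ x => A.isPair t K x ∧ A.nonneg t n K x
  con := A.free t
  fo_hyp n := (A.fo_isPair t).and (A.fo_nonneg t n)
  fo_con := A.fo_free t
  hyp_anti m n h K _ x hx := ⟨hx.1, A.nonneg_anti t m n h K x hx.2⟩
  con_mono := A.free_mono t

theorem uniform_iff (A : Pairs) (t : A.Ty) (n : ℕ) (K : Type) [Field K] :
    (A.problem t).Uniform n K ↔ Effective A t n K :=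
  ⟨fun h x h1 h2 => h x ⟨h1, h2⟩, fun h x hx => h x hx.1 hx.2⟩

theorem abundance_iff (A : Pairs) (t : A.Ty) : StrongAbundance A t ↔ (A.problem t).Solved ℂ := by
  constructor
  · intro h x hx
    have h1 := (hx 0).1
    have h2 := (A.nef_iff t x h1).2 fun n => (hx n).2
    exact (A.stein t x h1 h2).1 (h x h1 h2)
  · intro h x h1 h2
    exact (A.stein t x h1 h2).2 (h x fun n => ⟨h1, (A.nef_iff t x h1).1 h2 n⟩)

/-- For each bounded type `t` of pairs the following are equivalent: for all complex pairs of type
`t` with `L` nef there is a unique fibration with `L = g^* L_B`, `L_B` ample; there is an `n` such that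
for all pairs of type `t` over algebraically closed fields of characteristic zero with `L · C ≥ 0`
for all curves `C` of degree at most `n`, some base point free line bundle is numerically equivalent
to `L ^ m` with `1 ≤ m ≤ n`; there is an `n` with the same property for all pairs of type `t` over
`F̄_p`, for infinitely many primes `p`; there is such an `n` for all but finitely many primes `p`. For
each `n` and each algebraically closed field `K` of characteristic zero the property holds over `K`
if and only if it holds over `F̄_p` for infinitely many `p`, if and only if it holds for all but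
finitely many `p`. All is true if the dimension is at most two. -/
theorem result (A : Pairs) (t : A.Ty) :
    [StrongAbundance A t, UniformCharZero A t, UniformInfinitely A t, UniformAlmost A t].TFAE ∧
    (∀ (n : ℕ) (K : Type) [Field K] [IsAlgClosed K] [CharZero K],
      [Effective A t n K, {p : Nat.Primes | Effective A t n (Fbar p)}.Infinite,
        {p : Nat.Primes | ¬ Effective A t n (Fbar p)}.Finite].TFAE) ∧
    (A.dim t ≤ 2 → UniformCharZero A t ∧ UniformAlmost A t) := by
  have hi : ∀ (n : ℕ) (K : Type) [Field K] [IsAlgClosed K] [CharZero K],
      Effective A t n K ↔ {p : Nat.Primes | Effective A t n (Fbar p)}.Infinite := by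
    intro n K _ _ _
    simp only [← uniform_iff]
    exact (A.problem t).uniform_iff_infinite n K
  have hf : ∀ (n : ℕ) (K : Type) [Field K] [IsAlgClosed K] [CharZero K],
      Effective A t n K ↔ {p : Nat.Primes | ¬ Effective A t n (Fbar p)}.Finite := by
    intro n K _ _ _
    simp only [← uniform_iff]
    exact (A.problem t).uniform_iff_finite n K
  have h0 : [StrongAbundance A t, UniformCharZero A t, UniformInfinitely A t,
      UniformAlmost A t].TFAE := by
    tfae_have 1 → 2 := by
      intro h
      obtain ⟨n, hn⟩ : ∃ n, ∀ (K : Type) [Field K] [IsAlgClosed K] [CharZero K],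
        (A.problem t).Uniform n K := ((A.problem t).tfae.out 0 2).1 ((abundance_iff A t).1 h)
      exact ⟨n, fun K _ _ _ => (uniform_iff A t n K).1 (hn K)⟩
    tfae_have 2 → 4 := by
      rintro ⟨n, hn⟩
      exact ⟨n, (hf n ℂ).1 (hn ℂ)⟩
    tfae_have 4 → 3 := by
      rintro ⟨n, hn⟩
      exact ⟨n, (hi n ℂ).1 ((hf n ℂ).2 hn)⟩
    tfae_have 3 → 1 := by
      rintro ⟨n, hn⟩
      rw [abundance_iff]
      have h1 := (hi n ℂ).2 hn
      rw [← uniform_iff] at h1
      exact h1.solved
    tfae_finish
  refine ⟨h0, fun n K _ _ _ => ?_, fun h => ?_⟩
  · tfae_have 1 ↔ 2 := hi n K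
    tfae_have 1 ↔ 3 := hf n K
    tfae_finish
  · have h1 : StrongAbundance A t := A.known t h
    exact ⟨(h0.out 0 1).1 h1, (h0.out 0 3).1 h1⟩

end Pool.Agent.Results.MP_cfacaa_ag.EffectiveModPrimes
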