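import Pool.Agent.Q57.IK.Top

/-!
# The fibrations of the toroidal models of covers of products of projective spaces

Let `F i` be a form of degree `d i` in `n i + 1` variables whose zero set in the projective
`n i`-space is a smooth hypersurface, and let `H i` be the cyclic hypersurface `w ^ (d i) = F i` in
the projective `(n i + 1)`-space. Let `K` be the function field of a quotient
`Y = (H 1 × ... × H r) / G`, where `G` is any group of diagonal automorphisms
`w i ↦ ζ i * w i`, `ζ i ^ (d i) = 1`. Equivalently, `K` is generated by the affine coordinates
`x i j / x i 0` of the product of the projective `n i`-spaces and by roots `z j`,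
`z j ^ (m j) = ∏ i, (F i (x i) / x i 0 ^ (d i)) ^ (a j i)`, where `m j` divides `a j i * d i`: the
abelian covers of the product of the projective spaces which are branched along the hypersurfaces
`F i = 0` of the factors. There is no condition on the dimensions and the degrees.

A prime divisor `P` over `Y` (a divisorial place of `K`) has the vector `multiplicities F d x P` of the
multiplicities `v i` of the hypersurfaces along `P`. The vectors `v ≠ 0` of nonnegative integers with
`m j ∣ ∑ i, a j i * v i` for all `j` are the `Admissible` ones: the nonzero points, in the positive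
orthant, of the lattice of the toroidal variety `Y`.

**The varieties.** The toroidal modifications `X` of `Y` are given by the subdivisions (fans) of the
positive orthant into rational polyhedral cones; `fan` is the set of the maximal cones, each given by
a finite set of admissible generators which span the space. The canonical divisor of `X` is arbitrary.
Calabi-Yau manifolds: let `Y i` be a cyclic cover of the projective `n i`-space of degree `e i` which
is branched along `F i = 0`, with `d i * (e i - 1) = (n i + 1) * e i`; then `K ~ 0` for the `Y i`, for
their product, for the quotients `Y` of the product by the groups of diagonal automorphisms which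
preserve the holomorphic volume form, and for the smooth crepant toroidal resolutions `X` of `Y`.

**The divisors.** `D` is a toroidal `ℚ`-Cartier divisor on `X`: a sum of multiples `β t` of the
hyperplane classes of the factors and of the prime divisors of the boundary of `X`. The coefficient
of the pullback of `D` at a prime divisor `P` over `X` is
`coefficient F d x c β P = c v + ∑ t, β t * h t`, where `v` is the vector of the multiplicities, `h t`
is minus the minimal order at `P` of the homogeneous coordinates of the `t`-th factor, and
`- c v = ∑ k, u σ k * v k` on the cone `σ`. If all `n i ≥ 3` then every divisor on `X` is, up to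
`ℚ`-linear equivalence, toroidal, and all rational `(1,1)`-classes on `X` are classes of
toroidal `ℚ`-divisors (Lefschetz; this remark is not used and not proved here).

**The theorem.** Suppose that a positive multiple of `D` has a section. The Iitaka field of `D`
consists of the quotients of two sections of a multiple of `D`; it is the function field of the base
of the Iitaka fibration of `D`. It is the algebraic closure in `K` of the field which is generated by
the coordinates of the factors in the set `I` of the factors `t` with `Moves fan d c β t`: an explicit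
linear program decides whether `t` is in `I`. So the Iitaka fibration of `D` is, birationally, the
Stein factorization of the projection of `X` to the product of the factors in `I`, and
`κ(X, D) = ∑ t ∈ I, n t`. In particular all toroidal divisors together have at most `2 ^ r` Iitaka
fibrations.

If `D` is nef then a positive multiple of `D` has no base points, and `I` is the set of all `t` with
`d t * u σ t < β t` for a maximal cone `σ`. So there are a morphism `g : X → B` with connected fibres
onto a normal projective variety `B` (the Stein factorization of the morphism which is given by the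
multiple of `D`) and an ample class `L_B` on `B` such that the class of `D` is `g ^* L_B`; `g` is unique
since it contracts exactly the curves `C` with `(D.C) = 0`; the function field of `B` is the
algebraic closure in `K` of the function field of the product of the projective spaces in `I`, and
`dim B = ∑ t ∈ I, n t`. If all `n i ≥ 3` and `X` is a Calabi-Yau manifold this is the answer to the
question for all nef `(1,1)`-classes on `X`, with a description of all the fibrations `g`. If not all
`n i ≥ 3`, for instance for `K3` surfaces and for covers of products of lines, it is the answer for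
the classes of the toroidal divisors.
-/

set_option autoImplicit false

open FF MvPolynomial Pool.Agent.W602.GT

namespace Pool.Agent.Results.MP_cfacaa_ag.Fibrations

/-- The form `F` has no singular zeros: its partial derivatives have no common zero but `0`. -/
def Smooth {n : ℕ} (F : MvPolynomial (Fin (n + 1)) ℂ) : Prop :=
  ∀ x : Fin (n + 1) → ℂ, x ≠ 0 → ∃ l, eval x (pderiv l F) ≠ 0

section fans

variable {r R : ℕ}

/-- The multiplicities which satisfy the divisibility conditions. -/
def Admissible (m : Fin R → ℕ) (a : Fin R → Fin r → ℕ) (v : Fin r → ℕ) : Prop :=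
  v ≠ 0 ∧ ∀ j, m j ∣ ∑ i, a j i * v i

/-- The vector `v` is in the cone which is generated by the vectors in `σ`. -/
def InCone (σ : Finset (Fin r → ℕ)) (v : Fin r → ℕ) : Prop :=
  ∃ w : (Fin r → ℕ) → ℚ, (∀ s, 0 ≤ w s) ∧ ∀ k, (v k : ℚ) = ∑ s ∈ σ, w s * s k

/-- `fan` is a finite set of cones, each generated by a finite set of admissible vectors which span
the whole space, which cover all admissible vectors. -/
structure IsFan (m : Fin R → ℕ) (a : Fin R → Fin r → ℕ) (fan : Finset (Finset (Fin r → ℕ))) :
    Prop where
  adm : ∀ σ ∈ fan, ∀ s ∈ σ, Admissible m a s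
  full : ∀ σ ∈ fan, ∀ f : Fin r → ℚ, ∃ q : (Fin r → ℕ) → ℚ, ∀ k, f k = ∑ s ∈ σ, q s * s k
  cover : ∀ v, Admissible m a v → ∃ σ ∈ fan, InCone σ v

/-- The divisor moves in the direction of the factor `t`: the polyhedron of its exponents, which is
given by the inequalities `∑ k, y k * s k ≥ - c s` for the generators `s` of the cones and
`d k * y k ≤ β k` for the factors `k`, is not contained in the hyperplane `d t * y t = β t`. -/
def Moves (fan : Finset (Finset (Fin r → ℕ))) (d : Fin r → ℕ) (c : (Fin r → ℕ) → ℚ)
    (β : Fin r → ℤ) (t : Fin r) : Prop :=
  ∃ y : Fin r → ℚ, (∀ k, (d k : ℚ) * y k ≤ β k) ∧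
    (∀ σ ∈ fan, ∀ s ∈ σ, - c s ≤ ∑ k, y k * s k) ∧ (d t : ℚ) * y t < β t

end fans

section places

variable {r : ℕ} {n : Fin r → ℕ} {K : Type} [Field K] [Algebra ℂ K]

/-- The affine coordinates of the product of the projective spaces. -/
noncomputable def affine (x : ∀ i, Fin (n i + 1) → K) (b : (i : Fin r) × Fin (n i)) : K :=
  x b.1 b.2.succ / x b.1 0

/-- The field which is generated by the coordinates of the factors in `I`: the function field of the
product of these projective spaces. -/
noncomputable def factorField (x : ∀ i, Fin (n i + 1) → K) (I : Finset (Fin r)) :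
    IntermediateField ℂ K :=
  IntermediateField.adjoin ℂ {z | ∃ t ∈ I, ∃ j, z = x t j / x t 0}

/-- The minimal order at `P` of the homogeneous coordinates `y`. -/
noncomputable def minimalOrder {n : ℕ} (y : Fin (n + 1) → K) (P : Place ℂ K) : ℤ :=
  Finset.univ.inf' Finset.univ_nonempty fun j => P.ord (y j)

/-- The multiplicities of the hypersurfaces `F i = 0` along the prime divisor `P`; the `x i j` are the
homogeneous coordinates of the `i`-th factor, which are divided by one of minimal order at `P`. -/
noncomputable def multiplicities (F : ∀ i, MvPolynomial (Fin (n i + 1)) ℂ) (d : Fin r → ℕ)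
    (x : ∀ i, Fin (n i + 1) → K) (P : Place ℂ K) (i : Fin r) : ℕ :=
  (P.ord (aeval (x i) (F i)) - d i * minimalOrder (x i) P).toNat

/-- The coefficient at the prime divisor `P` of the divisor with the function `c` of the
multiplicities and the degrees `β t`: it is `c v` plus `β t` times the coefficient at `P` of the
hyperplane class of the `t`-th factor, which is represented by the divisor with the coefficients
`- minimalOrder (x t) P` (its sections are the linear forms in the `x t j`). -/
noncomputable def coefficient (F : ∀ i, MvPolynomial (Fin (n i + 1)) ℂ) (d : Fin r → ℕ)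
    (x : ∀ i, Fin (n i + 1) → K) (c : (Fin r → ℕ) → ℚ) (β : Fin r → ℤ) (P : Place ℂ K) : ℚ :=
  c (multiplicities F d x P) - ∑ t, (β t : ℚ) * minimalOrder (x t) P

end places

section sections

variable {K : Type} [Field K] [Algebra ℂ K] (N : ℕ) (δ : Place ℂ K → ℚ)

/-- `f` is a section of `k * D`: its order at every prime divisor `P` over `X` (every divisorial
place `P` of `K`) is at least minus the coefficient `k * δ P` of the pullback of `k * D`, or `f = 0`. -/
def IsSection (k : ℕ) (f : K) : Prop :=
  ∀ P : Place ℂ K, Divisorial N P → f = 0 ∨ - (k * δ P) ≤ P.ord f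

/-- The linear system of `k * D` has no base points: it has for every prime divisor `P` over `X` a
section which does not vanish at `P`, that is, its order at `P` is the minimal one. (If the linear
system has a base point on `X` then all sections vanish at the exceptional divisor of its blowing
up.) -/
def BasePointFree (k : ℕ) : Prop :=
  ∀ P : Place ℂ K, Divisorial N P → ∃ f : K, f ≠ 0 ∧ IsSection N δ k f ∧
    (P.ord f : ℚ) ≤ - (k * δ P)

/-- `D` is nef: there is a divisor `A` such that all `M * D + A`, `M ≥ 1`, are semiample: there is
`j ≥ 1` such that for every prime divisor `P` over `X` the divisor `j * (M * D + A)` has a section of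
the minimal order at `P`. Here `A` is the divisor which is generated by the finite set `S` of
functions (its coefficient at `P` is minus the minimal order at `P` of the functions in `S`). This
holds if `D` is nef in the usual sense and `A` is ample (then the divisors `M * D + A` are ample). -/
def Nef : Prop :=
  ∃ S : Finset K, (∃ s ∈ S, s ≠ 0) ∧ ∀ M : ℕ, 1 ≤ M → ∃ j : ℕ, 1 ≤ j ∧
    ∀ P : Place ℂ K, Divisorial N P → ∃ f : K, f ≠ 0 ∧
      (∀ P' : Place ℂ K, Divisorial N P' → ∃ s ∈ S, s ≠ 0 ∧
        (j : ℚ) * P'.ord s - j * M * δ P' ≤ P'.ord f) ∧
      ∀ s ∈ S, s ≠ 0 → (P.ord f : ℚ) ≤ j * P.ord s - j * M * δ P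

/-- The Iitaka field of `D`: the quotients `f / g` of two sections of a multiple of `D`. -/
def iitakaField : IntermediateField ℂ K where
  carrier := {z | ∃ (k : ℕ) (f g : K), IsSection N δ k f ∧ IsSection N δ k g ∧ g ≠ 0 ∧ z = f / g}
  mul_mem' := (Pool.Agent.Q57.IK.IF N δ).mul_mem'
  add_mem' := (Pool.Agent.Q57.IK.IF N δ).add_mem'
  algebraMap_mem' := (Pool.Agent.Q57.IK.IF N δ).algebraMap_mem'
  inv_mem' := (Pool.Agent.Q57.IK.IF N δ).inv_mem'

/-- The Iitaka fibration of `D` is (birationally) the Stein factorization of the projection to the
product of the factors in `I`: the Iitaka field of `D` is the algebraic closure in `K` of the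
function field of the product of the factors in `I`, and its dimension is the sum of the dimensions
`n t` of these factors. -/
def FibrationIs {r : ℕ} {n : Fin r → ℕ} (x : ∀ i, Fin (n i + 1) → K) (I : Finset (Fin r)) :
    Prop :=
  (∀ z, z ∈ iitakaField N δ ↔ IsAlgebraic (factorField x I) z) ∧
    Algebra.trdeg ℂ (iitakaField N δ) = ((∑ t ∈ I, n t : ℕ) : Cardinal)

end sections

/-- **The fibrations.** Let `K` be the function field of an abelian cover `Y` of the product of the
projective `n i`-spaces which is branched along smooth hypersurfaces `F i = 0` of the factors, `X` the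
toroidal modification of `Y` which is given by `fan`, and `D` a toroidal `ℚ`-Cartier divisor on `X`
with the degrees `β t` and the coefficients `c`.

If a positive multiple of `D` has a section then the Iitaka fibration of `D` is the Stein
factorization of the projection to the product of the factors in whose direction `D` moves.

If `D` is nef then a positive multiple of `D` is base point free, and the factors in whose direction
`D` moves are the factors `t` with `d t * u σ t < β t` for a maximal cone `σ`. -/
theorem result (r N R : ℕ) (n d : Fin r → ℕ) (hr : 1 ≤ r) (hn : ∀ i, 1 ≤ n i)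
    (hd : ∀ i, 1 ≤ d i) (hN : N = ∑ i, n i)
    (F : ∀ i, MvPolynomial (Fin (n i + 1)) ℂ) (hF : ∀ i, (F i).IsHomogeneous (d i))
    (hs : ∀ i, Smooth (F i)) (m : Fin R → ℕ) (hm : ∀ j, 1 ≤ m j) (a : Fin R → Fin r → ℕ)
    (hdiv : ∀ j i, m j ∣ a j i * d i)
    (K : Type) [Field K] [Algebra ℂ K] (x : ∀ i, Fin (n i + 1) → K) (hx0 : ∀ i, x i 0 ≠ 0)
    (hbas : IsTranscendenceBasis ℂ (affine x)) (z : Fin R → K)
    (hz : ∀ j, z j ^ m j = ∏ i, (aeval (x i) (F i) / x i 0 ^ d i) ^ a j i)
    (hgen : IntermediateField.adjoin ℂ (Set.range (affine x) ∪ Set.range z) = ⊤)
    (fan : Finset (Finset (Fin r → ℕ))) (hfan : IsFan m a fan)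
    (c : (Fin r → ℕ) → ℚ) (hc0 : c 0 = 0) (β : Fin r → ℤ) (u : Finset (Fin r → ℕ) → Fin r → ℚ)
    (hlin : ∀ σ ∈ fan, ∀ v, Admissible m a v → InCone σ v → - c v = ∑ k, u σ k * v k)
    (δ : Place ℂ K → ℚ) (hδ : ∀ P, δ P = coefficient F d x c β P) :
    ((∃ k, 1 ≤ k ∧ ∃ f : K, f ≠ 0 ∧ IsSection N δ k f) →
      ∃ I : Finset (Fin r), (∀ t, t ∈ I ↔ Moves fan d c β t) ∧ FibrationIs N δ x I) ∧
    (Nef N δ → (∃ k, 1 ≤ k ∧ BasePointFree N δ k) ∧
      ∃ I : Finset (Fin r), (∀ t, t ∈ I ↔ ∃ σ ∈ fan, (d t : ℚ) * u σ t < β t) ∧
        FibrationIs N δ x I) := by
  have hfac : ∀ I : Finset (Fin r), Pool.Agent.Q57.IK.facF x I = factorField x I := by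
    intro I
    refine le_antisymm (Pool.Agent.Q57.IK.facF_le fun t ht j =>
      IntermediateField.subset_adjoin _ _ ⟨t, ht, j, rfl⟩) (IntermediateField.adjoin_le_iff.2 ?_)
    rintro _ ⟨t, ht, j, rfl⟩
    exact Pool.Agent.Q57.IK.facF_mem hx0 ht j
  obtain ⟨h1, h2⟩ := Pool.Agent.Q57.IK.main_iit (N := N) hr hn hN hd hF hs hx0 hbas hm hdiv hz hgen
    (S := fan) ⟨hfan.adm, hfan.full, hfan.cover⟩ hc0 (u := u) hlin (β := β) hδ
  refine ⟨fun hex => ?_, fun hnef => ?_⟩
  · obtain ⟨I, hI, hz, htr⟩ := h1 hex
    exact ⟨I, hI, fun z => by rw [← hfac]; exact hz z, htr⟩
  · obtain ⟨hk, I, hI, hz, htr⟩ := h2 hnef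
    exact ⟨hk, I, hI, fun z => by rw [← hfac]; exact hz z, htr⟩

end Pool.Agent.Results.MP_cfacaa_ag.Fibrations
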